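import Mathlib

set_option autoImplicit false

namespace Pool.Agent.Results.MP_8d002f_nt.Sols

theorem result : ∀ k ∈ ({7, 14, 37} : Set ℤ), ∃ a d r : ℤ, 1 ≤ a ∧ 1 ≤ d ∧ 1 ≤ r ∧
    2 * (a * (a + d) * (a + 2 * d) * (a + 3 * d)) = r * ((k - 2) * r - (k - 4)) := by
  rintro k (rfl | rfl | rfl)
  · exact ⟨9, 8, 225, by norm_num⟩
  · exact ⟨5, 10, 105, by norm_num⟩
  · exact ⟨69, 748, 107985, by norm_num⟩

end Pool.Agent.Results.MP_8d002f_nt.Sols
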